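import Pool.Agent.W2helper82.OA.Stm

/-!
# Outer boundaries: piece P13 (window on the left side)
-/

set_option autoImplicit false

namespace Pool.Agent.W2helper82.OA.P13

open H974 H12S Finset H984P H984N
open Pool.Agent.Y989.FR (Awy AE)
open Pool.Agent.W2helper82.OA

/-- vertical path -/
theorem col_reach (E : Set Edg) (x a : ℤ) (n : ℕ)
    (h : ∀ y : ℤ, a ≤ y → y < a + n → ((x, y, false) : Edg) ∈ E) : Reach E (x, a) (x, a + n) := by
  induction n with
  | zero => simpa using Reach.refl E (x, a)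
  | succ n ih =>
    refine (ih (fun y h1 h2 => h y h1 (by push_cast; omega))).trans (Adj.reach ?_)
    refine ⟨(x, a + n, false), h _ (by omega) (by push_cast; omega), Or.inl ⟨rfl, ?_⟩⟩
    simp only [tgt_false]
    congr 1
    push_cast
    ring

/-- vertical path between two heights -/
theorem col_any (E : Set Edg) (x a b : ℤ)
    (h : ∀ y : ℤ, min a b ≤ y → y < max a b → ((x, y, false) : Edg) ∈ E) :
    Reach E (x, a) (x, b) := by
  rcases le_total a b with hab | hab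
  · obtain ⟨n, hn⟩ := Int.eq_ofNat_of_zero_le (show 0 ≤ b - a by omega)
    have hb : b = a + n := by omega
    subst hb
    exact col_reach E x a n (fun y h1 h2 => h y (by omega) (by omega))
  · obtain ⟨n, hn⟩ := Int.eq_ofNat_of_zero_le (show 0 ≤ a - b by omega)
    have hb : a = b + n := by omega
    subst hb
    exact (col_reach E x b n (fun y h1 h2 => h y (by omega) (by omega))).symm

theorem sd_nonneg (u w : Vtx) : 0 ≤ sd u w := le_max_of_le_left (abs_nonneg _)

/-- the last vertex of a nontrivial path is an end of an edge of the path -/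
theorem last_edge {E : Set Edg} {x p : Vtx} (h : Reach E x p) (hne : x ≠ p) :
    ∃ e ∈ E, src e = p ∨ tgt e = p := by
  rcases Relation.ReflTransGen.cases_tail h with h | ⟨y, _, e, he, h⟩
  · exact absurd h.symm hne
  · exact ⟨e, he, h.elim (fun h => Or.inr h.2) (fun h => Or.inl h.1)⟩

/-- the window index -/
theorem index (K g : ℕ) (hK : 20 ≤ K) (h : ℤ) (h1 : 2 * (g : ℤ) ≤ h)
    (h2 : h ≤ ((K * g : ℕ) : ℤ) - 2 * g) (hg : 0 < g) :
    ∃ i : ℕ, 10 ≤ i ∧ i + 10 ≤ K ∧ |h - ((i * g : ℕ) : ℤ)| ≤ 9 * g := by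
  have hg' : (0 : ℤ) < g := by exact_mod_cast hg
  have hq := Int.mul_ediv_add_emod h g
  have hr1 := Int.emod_nonneg h hg'.ne'
  have hr2 := Int.emod_lt_of_pos h hg'
  set q := h / (g : ℤ) with hqd
  set r := h % (g : ℤ) with hrd
  have hq0 : 0 ≤ q := Int.ediv_nonneg (by omega) hg'.le
  push_cast at h2 ⊢
  by_cases c1 : q < 10
  · refine ⟨10, le_rfl, by omega, ?_⟩
    have : (g : ℤ) * q ≤ g * 9 := mul_le_mul_of_nonneg_left (by omega) hg'.le
    rw [abs_le]
    push_cast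
    constructor <;> nlinarith
  · by_cases c2 : q + 10 ≤ K
    · refine ⟨q.toNat, by omega, by omega, ?_⟩
      have hqt : ((q.toNat : ℕ) : ℤ) = q := Int.toNat_of_nonneg hq0
      rw [hqt, abs_le]
      constructor <;> nlinarith
    · refine ⟨K - 10, by omega, by omega, ?_⟩
      have hKt : ((K - 10 : ℕ) : ℤ) = (K : ℤ) - 10 := by omega
      rw [hKt, abs_le]
      have : (g : ℤ) * ((K : ℤ) - 9) ≤ g * q := mul_le_mul_of_nonneg_left (by omega) hg'.le
      constructor <;> nlinarith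

theorem s_win : S_WIN := by
  intro M B K g hM hB hK hg v hv F hF
  obtain ⟨hel, hfar, x, hx, h, h1, h2, hp⟩ := hF
  obtain ⟨b, rfl⟩ : ∃ b, B = b + 1 := ⟨B - 1, by omega⟩
  -- numerical facts
  have hg' : (0 : ℤ) < g := by exact_mod_cast hg
  have h64 : 1 ≤ 64 ^ b := Nat.one_le_pow _ _ (by norm_num)
  have hMb : 1 ≤ M * 64 ^ b := Nat.mul_pos hM h64
  have hK1 : 4096 * (M * 64 ^ b) ≤ K := by
    refine le_trans (le_of_eq ?_) hK
    rw [pow_succ]; ring
  have hK2 : 4096 ≤ K := by omega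
  have hMK : M ≤ K := by
    have : M * 1 ≤ M * 64 ^ b := Nat.mul_le_mul_left _ h64
    omega
  obtain ⟨i, hi1, hi2, hi3⟩ := index K g (by omega) h h1 h2 hg
  generalize hS : K * g = s at *
  have hs1 : 4096 * g ≤ s := by rw [← hS]; exact Nat.mul_le_mul_right _ hK2
  have hs1' : 4096 * (g : ℤ) ≤ s := by exact_mod_cast hs1
  have hs2 : 4096 * (M * 64 ^ b) * g ≤ s := by rw [← hS]; exact Nat.mul_le_mul_right _ hK1
  have hs0 : (0 : ℤ) < s := by omega
  -- the vertex `v`
  have hv' := hv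
  simp only [CtrS, BX, Finset.mem_filter, Finset.mem_product, Finset.mem_Icc] at hv'
  obtain ⟨⟨⟨v1, v2⟩, v3, v4⟩, v5, v6⟩ := hv'
  have v7 := abs_le.1 (show |2 * v.1 - (s : ℤ)| ≤ s / 8 by omega)
  have v8 := abs_le.1 (show |2 * v.2 - (s : ℤ)| ≤ s / 8 by omega)
  -- the exit vertex
  set p : Vtx := (2 * (g : ℤ), h) with hpd
  have hxp : x ≠ p := by
    intro hxp
    have := hx.1
    rw [hxp, abs_le] at this
    simp only [hpd] at this
    push_cast at this
    omega
  have hpA : ∀ d ∈ KH s v F, Awy M (b + 1) (2 * s) v d p := by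
    obtain ⟨e, ⟨_, _, he⟩, he' | he'⟩ := last_edge hp hxp
    · intro d hd; rw [← he']; exact (he d hd).1
    · intro d hd; rw [← he']; exact (he d hd).2
  have hpd1 : (s : ℤ) ≤ 4 * sd p v := by
    have : |p.1 - v.1| ≤ sd p v := le_max_left _ _
    have h3 : v.1 - p.1 ≤ |p.1 - v.1| := by rw [abs_sub_comm]; exact le_abs_self _
    simp only [hpd] at h3 this ⊢
    omega
  have hfar' : ∀ d ∈ KH s v F, 1024 * (g : ℤ) < sd p d := by
    intro d hd
    have h3 := hpA d hd
    unfold Awy at h3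
    rw [Nat.add_sub_cancel] at h3
    by_contra hcon
    push Not at hcon
    have h4 : (s : ℤ) ^ (b + 1) ≤ (4 * sd p v) ^ (b + 1) := pow_le_pow_left₀ hs0.le hpd1 _
    rw [mul_pow] at h4
    have h5 : (4 : ℤ) ^ (b + 1) * sd p v ^ (b + 1) <
        4 ^ (b + 1) * ((M : ℤ) * ((8 * (2 * s) : ℕ) : ℤ) ^ b * sd p d) :=
      mul_lt_mul_of_pos_left h3 (by positivity)
    have h6 : (M : ℤ) * ((8 * (2 * s) : ℕ) : ℤ) ^ b * sd p d ≤
        (M : ℤ) * ((8 * (2 * s) : ℕ) : ℤ) ^ b * (1024 * g) :=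
      mul_le_mul_of_nonneg_left hcon (by positivity)
    have h7 : (4 : ℤ) ^ (b + 1) * ((M : ℤ) * ((8 * (2 * s) : ℕ) : ℤ) ^ b * (1024 * g)) =
        (4096 * (M * 64 ^ b) * g) * (s : ℤ) ^ b := by
      have h64' : (64 : ℤ) ^ b = 4 ^ b * 16 ^ b := by rw [← mul_pow]; norm_num
      push_cast
      rw [show (8 * (2 * (s : ℤ))) = 16 * s by ring, mul_pow, h64', pow_succ]
      ring
    have h8 : (4096 * (M * 64 ^ b) * g) * (s : ℤ) ^ b ≤ (s : ℤ) * (s : ℤ) ^ b :=
      mul_le_mul_of_nonneg_right (by exact_mod_cast hs2) (by positivity)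
    have h9 : (4 : ℤ) ^ (b + 1) * ((M : ℤ) * ((8 * (2 * s) : ℕ) : ℤ) ^ b * sd p d) ≤
        4 ^ (b + 1) * ((M : ℤ) * ((8 * (2 * s) : ℕ) : ℤ) ^ b * (1024 * g)) :=
      mul_le_mul_of_nonneg_left h6 (by positivity)
    have h10 : (s : ℤ) * (s : ℤ) ^ b = (s : ℤ) ^ (b + 1) := by rw [pow_succ]; ring
    linarith
  have hnear : ∀ y : ℤ, |h - y| ≤ 9 * g → ∀ d ∈ KH s v F, Awy K (b + 1) (2 * s) v d
      ((2 * (g : ℤ), y) : Vtx) := by
    intro y hy d hd
    have hy0 := abs_le.1 hy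
    have h3 := hfar' d hd
    have h4 : sd p d ≤ sd ((2 * (g : ℤ), y) : Vtx) d + 9 * g := by
      simp only [sd, hpd]
      apply max_le
      · have : |2 * (g : ℤ) - d.1| ≤ max |2 * (g : ℤ) - d.1| |y - d.2| := le_max_left _ _
        omega
      · have h5 : |y - d.2| ≤ max |2 * (g : ℤ) - d.1| |y - d.2| := le_max_right _ _
        have h6 : |h - d.2| ≤ |h - y| + |y - d.2| := abs_sub_le _ _ _
        omega
    have h5 : (g : ℤ) < sd ((2 * (g : ℤ), y) : Vtx) d := by omega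
    have h6 : sd ((2 * (g : ℤ), y) : Vtx) v ≤ s := by
      simp only [sd]
      apply max_le <;> rw [abs_le] <;> constructor <;> omega
    unfold Awy
    rw [Nat.add_sub_cancel]
    have h7 : sd ((2 * (g : ℤ), y) : Vtx) v ^ (b + 1) ≤ (s : ℤ) ^ (b + 1) :=
      pow_le_pow_left₀ (sd_nonneg _ _) h6 _
    have h8 : (s : ℤ) ^ b ≤ ((8 * (2 * s) : ℕ) : ℤ) ^ b :=
      pow_le_pow_left₀ hs0.le (by push_cast; omega) _
    have h9 : (s : ℤ) ^ (b + 1) = K * (s : ℤ) ^ b * g := by
      rw [pow_succ]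
      nth_rewrite 2 [← hS]
      push_cast
      ring
    have hK0 : (0 : ℤ) < K := by omega
    have h10 : (K : ℤ) * (s : ℤ) ^ b * g < K * (s : ℤ) ^ b * sd ((2 * (g : ℤ), y) : Vtx) d :=
      mul_lt_mul_of_pos_left h5 (by positivity)
    have h11 : (K : ℤ) * (s : ℤ) ^ b * sd ((2 * (g : ℤ), y) : Vtx) d ≤
        K * ((8 * (2 * s) : ℕ) : ℤ) ^ b * sd ((2 * (g : ℤ), y) : Vtx) d :=
      mul_le_mul_of_nonneg_right (mul_le_mul_of_nonneg_left h8 hK0.le) (sd_nonneg _ _)
    linarith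
  have hi3' := abs_le.1 hi3
  have hig : ((i * g : ℕ) : ℤ) + 10 * g ≤ s := by
    have : (i + 10) * g ≤ K * g := Nat.mul_le_mul_right _ hi2
    rw [hS] at this
    zify at this
    push_cast
    linarith
  have hig2 : 10 * (g : ℤ) ≤ ((i * g : ℕ) : ℤ) := by
    exact_mod_cast Nat.mul_le_mul_right g hi1
  refine ⟨i, hi1, hi2, hel, hfar, ⟨x, hx, ?_⟩, ?_⟩
  · refine (hp.mono ?_).trans (col_any _ _ _ _ ?_)
    · rintro e ⟨e1, e2, e3⟩
      refine ⟨e1, e2, fun d hd => ?_⟩
      have hmono : ∀ u : Vtx, Awy M (b + 1) (2 * s) v d u → Awy K (b + 1) (2 * s) v d u := by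
        intro u hu
        unfold Awy at hu ⊢
        refine lt_of_lt_of_le hu ?_
        have : (M : ℤ) ≤ K := by exact_mod_cast hMK
        exact mul_le_mul_of_nonneg_right (mul_le_mul_of_nonneg_right this (by positivity))
          (sd_nonneg _ _)
      exact ⟨hmono _ (e3 d hd).1, hmono _ (e3 d hd).2⟩
    · intro y hy1 hy2
      have ya : |h - y| ≤ 9 * g := by rw [abs_le]; omega
      have yb : |h - (y + 1)| ≤ 9 * g := by rw [abs_le]; omega
      refine ⟨?_, ?_, fun d hd => ⟨?_, ?_⟩⟩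
      · rw [mem_RE_false]
        omega
      · rw [blk, mem_RE_false]
        push_cast
        omega
      · exact hnear y ya d hd
      · exact hnear (y + 1) yb d hd
  · intro d hd hav
    have h3 := hfar' d hd
    obtain ⟨⟨a1, a2⟩, a3, a4⟩ := hav
    simp only at a1 a2 a3 a4
    have h4 : sd p d ≤ 1024 * g := by
      simp only [sd, hpd]
      apply max_le <;> rw [abs_le] <;> constructor <;> omega
    omega

end Pool.Agent.W2helper82.OA.P13
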